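import Pool.Agent.J6H49.SY.Defs
import Pool.Agent.Helper600R2.Expander

/-!
# Large components in an expander
-/

set_option autoImplicit false

namespace Pool.Agent.J6H87.SY.Graph

open Finset Pool.Agent.J6H49.SY
open Pool.Agent.Helper600R2 (bd exists_expander)

variable {n : ℕ}

/-- the permutations -/
def sg (π : Equiv.Perm (Fin n)) (t : Fin 3) : Equiv.Perm (Fin n) :=
  if t = 0 then 1 else if t = 1 then (finRotate n)⁻¹ else π

/-- all edges that leave `S` are in `K` -/
def Cl (σ : Fin 3 → Equiv.Perm (Fin n)) (K : Finset (Fin n × Fin 3)) (S : Finset (Fin n × Bool)) :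
    Prop := ∀ i t, (i, t) ∉ K → ((i, false) ∈ S ↔ (σ t i, true) ∈ S)

/-- the left half of `S` -/
def A (S : Finset (Fin n × Bool)) : Finset (Fin n) := univ.filter fun i => (i, false) ∈ S

theorem mem_A {S : Finset (Fin n × Bool)} {i : Fin n} : i ∈ A S ↔ (i, false) ∈ S := by
  unfold A
  simp

theorem card_A_compl (S : Finset (Fin n × Bool)) : (A Sᶜ).card + (A S).card = n := by
  have h : A Sᶜ = (A S)ᶜ := by
    ext i
    rw [mem_A, mem_compl, mem_compl, mem_A]
  rw [h, card_compl, Fintype.card_fin]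
  have := card_le_univ (A S)
  rw [Fintype.card_fin] at this
  omega

theorem Cl.compl {σ : Fin 3 → Equiv.Perm (Fin n)} {K : Finset (Fin n × Fin 3)}
    {S : Finset (Fin n × Bool)} (h : Cl σ K S) : Cl σ K Sᶜ := by
  intro i t ht
  rw [mem_compl, mem_compl, h i t ht]

theorem Cl.inter {σ : Fin 3 → Equiv.Perm (Fin n)} {K : Finset (Fin n × Fin 3)}
    {S T : Finset (Fin n × Bool)} (h : Cl σ K S) (h' : Cl σ K T) : Cl σ K (S ∩ T) := by
  intro i t ht
  rw [mem_inter, mem_inter, h i t ht, h' i t ht]

theorem bd_le {π : Equiv.Perm (Fin n)} {K : Finset (Fin n × Fin 3)} {S : Finset (Fin n × Bool)}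
    (h : Cl (sg π) K S) : (bd π (A S)).card ≤ K.card := by
  classical
  have key : ∀ i ∈ bd π (A S), (i, (2 : Fin 3)) ∈ K ∨ (π i, (0 : Fin 3)) ∈ K := by
    intro i hi
    by_contra hcon
    rw [not_or] at hcon
    have h1 := h i 2 hcon.1
    have h2 := h (π i) 0 hcon.2
    unfold bd at hi
    rw [mem_filter, mem_A, mem_A] at hi
    refine hi.2 ?_
    rw [h1, h2]
    rfl
  refine card_le_card_of_injOn (fun i => if (i, (2 : Fin 3)) ∈ K then (i, 2) else (π i, 0)) ?_ ?_
  · intro i hi
    show (if (i, (2 : Fin 3)) ∈ K then (i, (2 : Fin 3)) else (π i, 0)) ∈ K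
    split_ifs with h1
    · exact h1
    · exact (key i hi).resolve_left h1
  · intro i _ j _ hij
    simp only at hij
    split_ifs at hij with h1 h2 h2
    · exact (Prod.ext_iff.1 hij).1
    · exact absurd (show (2 : Fin 3) = 0 from (Prod.ext_iff.1 hij).2) (by decide)
    · exact absurd (show (0 : Fin 3) = 2 from (Prod.ext_iff.1 hij).2) (by decide)
    · exact π.injective (Prod.ext_iff.1 hij).1

theorem bd_rot_le {π : Equiv.Perm (Fin n)} {K : Finset (Fin n × Fin 3)}
    {S : Finset (Fin n × Bool)} (h : Cl (sg π) K S) : (bd (finRotate n) (A S)).card ≤ K.card := by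
  classical
  have key : ∀ i ∈ bd (finRotate n) (A S),
      (finRotate n i, (1 : Fin 3)) ∈ K ∨ (i, (0 : Fin 3)) ∈ K := by
    intro i hi
    by_contra hcon
    rw [not_or] at hcon
    have h1 := h (finRotate n i) 1 hcon.1
    have h2 := h i 0 hcon.2
    unfold bd at hi
    rw [mem_filter, mem_A, mem_A] at hi
    refine hi.2 ?_
    rw [h1, h2]
    have e : sg π 1 (finRotate n i) = i := by
      exact (finRotate n).symm_apply_apply i
    rw [e]
    rfl
  refine card_le_card_of_injOn
    (fun i => if (finRotate n i, (1 : Fin 3)) ∈ K then (finRotate n i, 1) else (i, 0)) ?_ ?_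
  · intro i hi
    show (if (finRotate n i, (1 : Fin 3)) ∈ K then (finRotate n i, (1 : Fin 3)) else (i, 0)) ∈ K
    split_ifs with h1
    · exact h1
    · exact (key i hi).resolve_left h1
  · intro i _ j _ hij
    simp only at hij
    split_ifs at hij with h1 h2 h2
    · exact (finRotate n).injective (Prod.ext_iff.1 hij).1
    · exact absurd (show (1 : Fin 3) = 0 from (Prod.ext_iff.1 hij).2) (by decide)
    · exact absurd (show (0 : Fin 3) = 1 from (Prod.ext_iff.1 hij).2) (by decide)
    · exact (Prod.ext_iff.1 hij).1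

/-- `S` is big for `K` -/
def Big (σ : Fin 3 → Equiv.Perm (Fin n)) (K : Finset (Fin n × Fin 3)) (S : Finset (Fin n × Bool)) :
    Prop := Cl σ K S ∧ 2 * n < 3 * (A S).card

/-- the core -/
def Core (σ : Fin 3 → Equiv.Perm (Fin n)) (K : Finset (Fin n × Fin 3)) : Set (Fin n × Bool) :=
  {v | ∀ S, Big σ K S → v ∈ S}

section

variable {π : Equiv.Perm (Fin n)}
  (hπ : ∀ U : Finset (Fin n), n ≤ 3 * U.card → 3 * U.card ≤ 2 * n →
      n / 60 < (bd (finRotate n) U).card ∨ n / 60 < (bd π U).card)
  {K : Finset (Fin n × Fin 3)} (hK : K.card ≤ n / 60)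

include hπ hK

theorem dich {S : Finset (Fin n × Bool)} (h : Cl (sg π) K S) :
    3 * (A S).card < n ∨ 2 * n < 3 * (A S).card := by
  by_contra hcon
  rw [not_or, not_lt, not_lt] at hcon
  rcases hπ (A S) hcon.1 hcon.2 with h1 | h1
  · have := bd_rot_le h
    omega
  · have := bd_le h
    omega

theorem big_compl {S : Finset (Fin n × Bool)} (h : Cl (sg π) K S)
    (hb : ¬ Big (sg π) K S) : Big (sg π) K Sᶜ := by
  refine ⟨h.compl, ?_⟩
  have h1 := card_A_compl S
  rcases dich hπ hK h with h2 | h2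
  · omega
  · exact absurd ⟨h, h2⟩ hb

theorem big_inter {S T : Finset (Fin n × Bool)} (h : Big (sg π) K S)
    (h' : Big (sg π) K T) : Big (sg π) K (S ∩ T) := by
  have hc := h.1.inter h'.1
  refine ⟨hc, ?_⟩
  rcases dich hπ hK hc with h2 | h2
  · exfalso
    have e1 : A (S ∩ T) = A S ∩ A T := by
      ext i
      rw [mem_inter, mem_A, mem_A, mem_A, mem_inter]
    have e2 := card_union_add_card_inter (A S) (A T)
    have e3 := card_le_univ (A S ∪ A T)
    rw [Fintype.card_fin] at e3
    rw [e1] at h2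
    have h3 := h.2
    have h4 := h'.2
    omega
  · exact h2

omit hπ hK in
theorem big_univ (hn : 25 ≤ n) : Big (sg π) K univ := by
  refine ⟨fun i t _ => by simp, ?_⟩
  have : A (univ : Finset (Fin n × Bool)) = univ := by
    ext i
    rw [mem_A]
    simp
  rw [this, card_univ, Fintype.card_fin]
  omega

theorem core_big (hn : 25 ≤ n) : ∃ T : Finset (Fin n × Bool), Big (sg π) K T ∧
    ∀ v, v ∈ T ↔ v ∈ Core (sg π) K := by
  classical
  have h1 : ∀ 𝒮 : Finset (Finset (Fin n × Bool)), (∀ S ∈ 𝒮, Big (sg π) K S) →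
      Big (sg π) K (𝒮.inf id) := by
    intro 𝒮
    induction 𝒮 using Finset.induction_on with
    | empty =>
      intro _
      exact big_univ hn
    | insert S 𝒮 _ ih =>
      intro h
      rw [Finset.inf_insert]
      exact big_inter hπ hK (h S (mem_insert_self _ _)) (ih fun S hS => h S (mem_insert_of_mem hS))
  refine ⟨(univ.filter fun S => Big (sg π) K S).inf id, h1 _ fun S hS => (mem_filter.1 hS).2, ?_⟩
  intro v
  rw [Finset.mem_inf]
  constructor
  · intro h S hS
    exact h S (mem_filter.2 ⟨mem_univ _, hS⟩)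
  · intro h S hS
    exact h S (mem_filter.1 hS).2

theorem core_nonempty (hn : 25 ≤ n) : (Core (sg π) K).Nonempty := by
  obtain ⟨T, hT, h⟩ := core_big hπ hK hn
  have h1 : 0 < (A T).card := by
    have := hT.2
    omega
  obtain ⟨i, hi⟩ := card_pos.1 h1
  exact ⟨_, (h _).1 (mem_A.1 hi)⟩

theorem core_sub {S : Finset (Fin n × Bool)} (h : Cl (sg π) K S) {v : Fin n × Bool}
    (hv : v ∈ Core (sg π) K) (hvS : v ∈ S) : Big (sg π) K S := by
  by_contra hb
  have := hv _ (big_compl hπ hK h hb)
  exact (mem_compl.1 this) hvS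

end

theorem adj_symm {σ : Fin 3 → Equiv.Perm (Fin n)} {K : Finset (Fin n × Fin 3)}
    {u w : Fin n × Bool} (h : Adj σ K u w) : Adj σ K w u := by
  obtain ⟨t, h1, h2, h3⟩ := h
  exact ⟨t, h1.symm, h2.symm, h1 ▸ h3⟩

theorem adj_edge {σ : Fin 3 → Equiv.Perm (Fin n)} {K : Finset (Fin n × Fin 3)} {i : Fin n}
    {t : Fin 3} (h : (i, t) ∉ K) : Adj σ K (i, false) (σ t i, true) := by
  refine ⟨t, ?_, ?_, ?_⟩
  · simp [inc]
  · intro h
    exact absurd (show false = true from (Prod.ext_iff.1 h).2) (by decide)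
  · simpa [inc] using h

theorem main : S_GRAPH := by
  classical
  intro n hn
  obtain ⟨π, hπ⟩ := exists_expander hn
  refine ⟨sg π, Core (sg π), ?_, ?_, ?_, ?_⟩
  · intro K hK
    exact core_nonempty hπ hK hn
  · intro K K' hKK hK' v hv S hS
    exact hv S ⟨fun i t ht => hS.1 i t fun h => ht (hKK h), hS.2⟩
  · intro K hK v hv w hw
    have hcl : Cl (sg π) K (univ.filter fun w => Relation.ReflTransGen (Adj (sg π) K) v w) := by
      intro i t ht
      rw [mem_filter, mem_filter]
      have h1 := adj_edge (σ := sg π) ht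
      constructor
      · rintro ⟨-, h⟩
        exact ⟨mem_univ _, h.tail h1⟩
      · rintro ⟨-, h⟩
        exact ⟨mem_univ _, h.tail (adj_symm h1)⟩
    have hb := core_sub hπ hK hcl hv (mem_filter.2 ⟨mem_univ _, Relation.ReflTransGen.refl⟩)
    exact (mem_filter.1 (hw _ hb)).2
  · intro K hK v hv
    by_contra hcon
    push Not at hcon
    have hcl : Cl (sg π) K {v} := by
      intro i t ht
      rw [mem_singleton, mem_singleton]
      constructor
      · rintro rfl
        exact absurd (hcon t) ht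
      · rintro rfl
        refine absurd (hcon t) ?_
        simpa [inc] using ht
    have hb := core_sub hπ hK hcl hv (mem_singleton_self _)
    have h1 : (A ({v} : Finset (Fin n × Bool))).card ≤ 1 := by
      rw [card_le_one]
      intro a ha b hb
      rw [mem_A, mem_singleton] at ha hb
      rw [← hb] at ha
      exact (Prod.ext_iff.1 ha).1
    have := hb.2
    omega

end Pool.Agent.J6H87.SY.Graph
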